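import Pool.Agent.helper11.VDI.SpecC

/-!
# Row vdi:FNB (MP_07c750_an): the final theorem of version B
-/

set_option autoImplicit false

open scoped ContDiff Topology InnerProductSpace ENNReal ComplexConjugate
open MeasureTheory Filter Set

namespace Pool.Agent.VDI

open Pool.Agent.RPQ (PN PJ UN upd IsOp)
open Pool.Agent.VQ (CH AdZ perZ rk)
open Pool.Agent.VN (aN)
open Pool.Agent.VD
open Pool.Agent.VDE (UWLD FDX)

noncomputable section

theorem FNB_proof (hFNWF : FNWF_stmt) (hBC1B : BC1B_stmt) : FNB_stmt := by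
  intro d Γ _ _ hd c1 c2 c3 c4
  obtain ⟨k₀, J, u, a1, a2, a3, a4, a5⟩ := hFNWF d Γ hd c1 c2 c3 c4
  refine ⟨k₀, J, u, a1, a2, a3, a4, ?_⟩
  intro m Gs g1 g2 g3
  exact a5 (fun m Gs => SFm Γ m Gs) (fun K F0 hK hF m Gs hGs => ⟨hGs,
    fun r0 χ0 ch Cn k0 J p χ b1 b2 b3 => hBC1B d Γ K F0 r0 χ0 ch Cn k0 J p χ m Gs hd hK hF b1 b2 b3 hGs⟩)
    m Gs ⟨g1, g2, g3⟩

end

end Pool.Agent.VDI
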